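import Pool.Agent.Lib.Pad47bb.Index

/-!
The stronger formulation of the cone conjecture (fundamental domain for the subgroup
`Aut(X, Δ)` or `PsAut(X, Δ)`) is equivalent to the formulation of Q1 (fundamental domain for
`Aut(X)` or `PsAut(X)`) together with finiteness of the index of the images in `GL(N¹(X))`.

Dictionary: `V = N¹(X)_ℝ`, `L` = classes of integral divisors, `K = Nef^e(X)` or `Mov^e(X)`,
`Γ` = image of `Aut(X)` (resp. `PsAut(X)`), `Γ'` = image of `Aut(X, Δ)` (resp. `PsAut(X, Δ)`).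
-/

open Pool.Agent.Lib.Pad47bb

namespace Pool.Agent.Results.MP_ad47bb_ag.StrongWeak

/-- Let `L` be a lattice in a finite-dimensional real vector space `V`, `K` a convex cone with
nonempty interior whose closure contains no line, `Γ` a group of linear automorphisms preserving
`L` and `K`, and `Γ' ≤ Γ` a subgroup. Then `Γ'` has a rational polyhedral fundamental domain on `K`
if and only if `Γ` has one and `Γ'` has finite index in `Γ`. -/
theorem result {V : Type*} [NormedAddCommGroup V] [NormedSpace ℝ V] [FiniteDimensional ℝ V]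
    (L : Submodule ℤ V) [DiscreteTopology L] [IsZLattice ℝ L]
    (K : PointedCone ℝ V)
    (hsalient : ∀ x ∈ closure (K : Set V), -x ∈ closure (K : Set V) → x = 0)
    (hinterior : (interior (K : Set V)).Nonempty)
    (Γ Γ' : Subgroup (V ≃ₗ[ℝ] V)) (hle : Γ' ≤ Γ)
    (hL : ∀ g ∈ Γ, ∀ x ∈ L, g x ∈ L) (hK : ∀ g ∈ Γ, ∀ x ∈ K, g x ∈ K) :
    HasRPFD L Γ' K ↔ HasRPFD L Γ K ∧ (Γ'.subgroupOf Γ).FiniteIndex :=
  hasRPFD_subgroup_iff hle ⟨hsalient, hinterior, hL, hK⟩

end Pool.Agent.Results.MP_ad47bb_ag.StrongWeak
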